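import Pool.Agent.W475.BH.Stm
import Pool.Agent.H24R2.DZ.Spec

set_option autoImplicit false

/-!
# Zeros of the backward heat flow of the Riemann xi function, UNIFORMLY in the time

THEOREM (task FINU): for all `B, ε > 0` there are `C, R0` such that for all `R ≥ R0` and all `-B ≤ t < 0` with
`|t| (log R)² ≥ C` the heights `Im z` of the zeros of `Ht t` in the disc of radius `R` are, up to `ε`,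
uniformly distributed in `[-(|t|/2) log R, (|t|/2) log R]`.  We write `t = -4 κ`, and use the variable
`I z / 2` (so that the critical line is the imaginary axis).

Notation: `L = log T`, `r = κ L`, `M = κ L²` (`M ≥ C` throughout, `κ ≤ K0`), `XX z = 8 ξ(1/2 + z)`,
`XX z = HH z * ζ (1/2 + z)` (for `Im z > 0`; `Pool.Agent.H24R2.JP.SZeta`), `XK κ = e^{-κ D²} XX`,
`mT θ T` = the mollifier (a Dirichlet polynomial of length `T^θ`).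
Every task is one `Prop` below; a task proves it from the ones named in its description (given as
hypotheses), the proved theorems named there may be used too.
-/

namespace Pool.Agent.W475.BU

open Complex MeasureTheory Filter Topology
open Pool.Agent.W475.BH (Ht XK HH be Vh nz PP)
open Pool.Agent.H24R2.JP (XX)
open Pool.Agent.H24R2.DZ (mT bb)

/-! ## Objects -/

/-- The profile: `log ‖XK κ (I t + u) / HH (I t)‖` is about `VV κ (log t) (re u)`.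
`VV κ L (κ L x) = κ L² * Vh 1 x`. -/
noncomputable def VV (κ L x : ℝ) : ℝ :=
  if |x| ≤ κ * L then x ^ 2 / (4 * κ) else |x| * L / 2 - κ * L ^ 2 / 4

/-- The coefficients of `ζ * mT θ T`. -/
noncomputable def ac (θ T : ℝ) (n : ℕ) : ℂ := Pool.Agent.H24R2.DZ.cc (bb θ (Real.log T) 0) n

/-- `∑_p p^{-1/2 + w}` over the primes `p` with `a log T + 1 ≤ log p ≤ b log T - 1`. -/
noncomputable def PB (a b T : ℝ) (w : ℂ) : ℂ := ∑ p ∈ PP a b T, (p : ℂ) ^ (-(1 / 2 : ℂ) + w)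

/-- `∑_p 1/p` over the same primes. -/
noncomputable def SP (a b T : ℝ) : ℝ := ∑ p ∈ PP a b T, 1 / (p : ℝ)

/-- The Gaussian window at height `t`; for `w = I τ` it is the density
`(8 π κ)^(-1/2) exp (-(τ - t)² / (8 κ))`. -/
noncomputable def gw (κ t : ℝ) (w : ℂ) : ℂ :=
  ((1 / Real.sqrt (8 * Real.pi * κ) : ℝ) : ℂ) * cexp ((w - I * t) ^ 2 / (8 * κ))

/-- The local correlation of `ζ * mollifier` with the primes. -/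
noncomputable def JJ (κ θ a b T t : ℝ) : ℂ :=
  ∫ τ : ℝ, riemannZeta (1 / 2 + I * τ) * mT θ T (1 / 2 + I * τ) * PB a b T (I * τ) * gw κ t (I * τ)

/-- The test function. -/
noncomputable def qq (κ θ a b T t : ℝ) (w : ℂ) : ℂ :=
  gw κ t w * cexp (-(be t * (w - I * t))) * mT θ T (1 / 2 + w) * PB a b T w

/-- The normalising function `n` and the exceptional set `B`. -/
structure Nrm (T κ δ η θ : ℝ) (n : ℝ → ℝ) (B : Set ℝ) : Prop where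
  mB : MeasurableSet B
  mn : Measurable n
  vol : volume (Set.Icc T (2 * T) ∩ B) ≤ ENNReal.ofReal (η * T)
  pos : ∀ t ∈ Set.Icc T (2 * T) \ B, T⁻¹ ≤ n t ∧ n t ≤ T ^ 2
  e1 : ∀ x h : ℝ, 0 ≤ x → |h| ≤ T / 4 → ∫⁻ t in Set.Icc T (2 * T) \ B,
    ENNReal.ofReal ((‖riemannZeta (1 / 2 + (x : ℂ) + I * ((t + h : ℝ) : ℂ))‖ / n t) ^ 2) ≤
    ENNReal.ofReal (T * Real.exp (δ * (κ * Real.log T ^ 2 + (x ^ 2 + h ^ 2) / κ)))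
  e2 : ∀ v h : ℝ, |h| ≤ T / 4 → ∫⁻ t in Set.Icc T (2 * T) \ B,
    ENNReal.ofReal ((n t * ‖mT θ T (1 / 2 + (v : ℂ) + I * ((t + h : ℝ) : ℂ))‖) ^ 2) ≤
    ENNReal.ofReal (T * Real.exp (δ * (κ * Real.log T ^ 2 + (v ^ 2 + h ^ 2) / κ)))
  e3 : ∀ x h : ℝ, δ * (κ * Real.log T) ≤ x → x ≤ 4 * (κ * Real.log T) → |h| ≤ 6 * (κ * Real.log T) →
    volume {t : ℝ | t ∈ Set.Icc T (2 * T) \ B ∧
      ‖riemannZeta (1 / 2 + (x : ℂ) + I * ((t + h : ℝ) : ℂ))‖ <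
        n t * Real.exp (-(δ * (κ * Real.log T ^ 2)))} ≤ ENNReal.ofReal (η * T)

/-! ## A. Formulas -/

/-- Task KER. The kernel representation. (`Pool.Agent.H986R2.DBN.ClassH` has
`Ht_eq (t : ℝ) : Ht t z = DBN.XT (t/4) (I/2*z) / 64` for ALL real `t`, `Q u = 8 * Ph u`, see
`Pool.Agent.Helper242.KK.Kernel`; `DBN.SKer` (proved: `DBN.ker`) gives `XX = XT 0`; `BH.S_EXP` (proved:
`Pool.Agent.W807.BH.pEXP`) gives `XK`.) -/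
def S_KER : Prop := ∃ Q : ℝ → ℝ, Continuous Q ∧ (∀ u, 0 < Q u) ∧ (∀ u, Q (-u) = Q u) ∧
  (∀ R : ℝ, Integrable (fun u : ℝ => Q u * Real.exp (R * |u|))) ∧
  (∀ z : ℂ, XX z = ∫ u : ℝ, ((Q u : ℝ) : ℂ) * cexp (z * u)) ∧
  ∀ κ : ℝ, 0 < κ → ∀ z : ℂ, XK κ z = ∫ u : ℝ, ((Q u * Real.exp (-(κ * u ^ 2)) : ℝ) : ℂ) * cexp (z * u)

/-- Task INT (from KER). Backward flow by an imaginary Gaussian (with shifted contour), and back. For each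
`u` the Gaussian integrals are `(4πκ)^{-1/2} ∫ e^{u (s+iy) + (s+iy)²/(4κ)} dy = e^{-κ u²}` and
`(4πκ)^{-1/2} ∫ e^{u x - x²/(4κ)} dx = e^{κ u²}`; then Fubini. -/
def S_INT : Prop := ∀ κ : ℝ, 0 < κ → ∀ z : ℂ,
  (∀ s : ℝ, Integrable (fun y : ℝ => XX (z + (s : ℂ) + I * y) * cexp (((s : ℂ) + I * y) ^ 2 / (4 * κ))) ∧
    XK κ z = ((1 / Real.sqrt (4 * Real.pi * κ) : ℝ) : ℂ) *
      ∫ y : ℝ, XX (z + (s : ℂ) + I * y) * cexp (((s : ℂ) + I * y) ^ 2 / (4 * κ))) ∧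
  Integrable (fun u : ℝ => XK κ (z + (u : ℂ)) * ((Real.exp (-(u ^ 2 / (4 * κ))) : ℝ) : ℂ)) ∧
  XX z = ((1 / Real.sqrt (4 * Real.pi * κ) : ℝ) : ℂ) *
    ∫ u : ℝ, XK κ (z + (u : ℂ)) * ((Real.exp (-(u ^ 2 / (4 * κ))) : ℝ) : ℂ)

/-- Task STAR (from KER). Pairing on the critical line = pairing on the line `Re = X0`, for
`F w = (∑_j x_j e^{c_j w}) e^{A (w - I t)²}`. Proof: the identity
`∫ XX(Iτ) F(Iτ) dτ = (4πκ)^{-1/2} ∫∫ e^{-(X0-v)²/(4κ)} XK κ (X0 + Iτ) F(v + Iτ) dτ dv` holds: insert KER; for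
each `u` and `v`: `∫ e^{u I τ} F(v + I τ) dτ = e^{-u v} ∫ e^{u I τ} F(I τ) dτ` (contour shift, or explicit Gaussian
integrals), and `(4πκ)^{-1/2} ∫ e^{-(X0-v)²/(4κ) - u v} dv = e^{-u X0 + κ u²}`. The product is integrable since
`A < 1/(4κ)`. -/
def S_STAR : Prop := ∀ κ A : ℝ, 0 < κ → 0 < A → A < 1 / (4 * κ) → ∀ (m : ℕ) (x c : Fin m → ℂ) (t X0 : ℝ)
  (F : ℂ → ℂ), (∀ w, F w = (∑ j, x j * cexp (c j * w)) * cexp (A * (w - I * t) ^ 2)) →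
  Integrable (fun p : ℝ × ℝ => Real.exp (-((X0 - p.1) ^ 2 / (4 * κ))) * ‖XK κ ((X0 : ℂ) + I * p.2)‖ *
    ‖F ((p.1 : ℂ) + I * p.2)‖) ∧
  ‖∫ τ : ℝ, XX (I * τ) * F (I * τ)‖ ≤ 1 / Real.sqrt (4 * Real.pi * κ) *
    ∫ p : ℝ × ℝ, Real.exp (-((X0 - p.1) ^ 2 / (4 * κ))) * ‖XK κ ((X0 : ℂ) + I * p.2)‖ *
      ‖F ((p.1 : ℂ) + I * p.2)‖

/-- Task STQ (from STAR). The same for the test function `qq` (`A = 1/(8κ)`; expand `mT` and `PB` into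
exponentials of `w`), in `lintegral` form. -/
def S_STQ : Prop := ∀ κ θ a b T t X0 : ℝ, 0 < κ → 1 ≤ T →
  ENNReal.ofReal ‖∫ τ : ℝ, XX (I * τ) * qq κ θ a b T t (I * τ)‖ ≤
    ∫⁻ p : ℝ × ℝ, ENNReal.ofReal (1 / Real.sqrt (4 * Real.pi * κ) *
      Real.exp (-((X0 - p.1) ^ 2 / (4 * κ))) * ‖XK κ ((X0 : ℂ) + I * p.2)‖ *
      ‖qq κ θ a b T t ((p.1 : ℂ) + I * p.2)‖)

/-- Task GRO (from KER). Growth, uniformly in `κ`: by positivity `‖XX z‖ ≤ XX |re z|`, `‖XK κ z‖ ≤ XX |re z|`, and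
`XX x ≤ exp (x/2 log x + C x)` for real `x ≥ 1` (gamma function; `XX = HH * ζ (1/2 + ·)` also there);
`XK κ 0 ≥ XK K0 0 > 0`. -/
def S_GRO : Prop := (∃ C : ℝ, 0 < C ∧ ∀ z : ℂ,
    ‖XX z‖ ≤ Real.exp (|z.re| / 2 * Real.log (2 + |z.re|) + C * (1 + |z.re|)) ∧
    ∀ κ : ℝ, 0 < κ → ‖XK κ z‖ ≤ Real.exp (|z.re| / 2 * Real.log (2 + |z.re|) + C * (1 + |z.re|))) ∧
  ∀ K0 : ℝ, 0 < K0 → ∃ c : ℝ, 0 < c ∧ ∀ κ : ℝ, 0 < κ → κ ≤ K0 → c ≤ ‖XK κ 0‖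

/-! ## B. Mean squares of the zeta function and the mollifier -/

/-- Task SAY: mean square of `ζ M` minus a longer partial sum. Adapt the proof of `SAN`
(`Pool.Agent.W688.SD.san`, file `Pool/Agent/W688/SD/SAN.lean`; same hypotheses `SMelG SPlan SGamLow SBig SRep
SSmall`): replace `F x = GF y b (ray δ x)` by `F x - ∑_{2 ≤ n ≤ Y} cc b n * cexp (-(n * ray δ x))`, whose Mellin
transform is that of `F` minus `Γ(s) e^{..} ∑ cc b n n^{-s}`. For `x ≥ 2π/cos δ` use `SBig` with the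
coefficients `cc b n` for `n > Y` only; for `x ≤ 2π/cos δ` estimate the new sum trivially by Cauchy-Schwarz:
`(∑_{n≤Y} |c_n|)² ≤ Y² ∑ |c_n|²/n ≤ T ∑ |c_n|²/n`. -/
def S_SAY : Prop := ∃ C T0 : ℝ, 0 < C ∧ 1 ≤ T0 ∧ ∀ (T σ : ℝ) (y Y : ℕ) (b : ℕ → ℂ), T0 ≤ T → 1 ≤ y →
  (y : ℝ) ^ 100 ≤ T → 1 ≤ Y → (Y : ℝ) ^ 2 ≤ T → 1 / 2 ≤ σ → σ ≤ 9 / 10 → (∀ h, y < h → b h = 0) →
  ∫ t in (T / 4)..(4 * T), ‖riemannZeta ((σ : ℂ) + t * I) *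
      Pool.Agent.H24R2.DZ.MM y b ((σ : ℂ) + t * I) -
      ∑ n ∈ Finset.Icc 1 Y, Pool.Agent.H24R2.DZ.cc b n * (n : ℂ) ^ (-((σ : ℂ) + t * I))‖ ^ 2 ≤
    C * T * ((∑' n : ℕ, if n ≤ Y then 0 else
        ‖Pool.Agent.H24R2.DZ.cc b n‖ ^ 2 * (n : ℝ) ^ (-(2 * σ)) * Real.exp (-(n / T))) +
      T ^ (1 - 2 * σ) * (∑ k ∈ Finset.Icc 1 y, (k : ℝ) * (1 + Real.log k) *
        ‖Pool.Agent.H24R2.DZ.rr y b k‖ ^ 2) +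
      T ^ (1 - 2 * σ) * (∑ n ∈ Finset.Icc 1 Y, ‖Pool.Agent.H24R2.DZ.cc b n‖ ^ 2 / (n : ℝ)) +
      T ^ (-(1 / 2) : ℝ) * ∑ h ∈ Finset.Icc 1 y, ‖b h‖ ^ 2)

/-- Task TL: mean squares inside a strip. For `s0 = σ + i t` use Cauchy's formula
`f(s0) = (1/2πi) ∮ f(w) e^{(w-s0)²} / (w-s0) dw` over the boundary of `[4/5, 4] × [t - T/8, t + T/8]`,
Cauchy-Schwarz on the vertical sides, integrate over `t`; the horizontal sides give `T^A e^{-T²/64 + 16}`. -/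
def S_TL : Prop := ∀ A : ℝ, 0 ≤ A → ∃ C T0 : ℝ, 0 < C ∧ 2 ≤ T0 ∧ ∀ T : ℝ, T0 ≤ T → ∀ f : ℂ → ℂ,
  (∀ z : ℂ, 4 / 5 ≤ z.re → z.re ≤ 4 → T / 4 ≤ z.im → z.im ≤ 4 * T →
    DifferentiableAt ℂ f z ∧ ‖f z‖ ≤ T ^ A) →
  ∀ σ : ℝ, 9 / 10 ≤ σ → σ ≤ 39 / 10 →
  ∫ t in (T / 2)..(3 * T), ‖f ((σ : ℂ) + t * I)‖ ^ 2 ≤
    C * ((∫ t in (T / 4)..(4 * T), ‖f (((4 / 5 : ℝ) : ℂ) + t * I)‖ ^ 2) +
      (∫ t in (T / 4)..(4 * T), ‖f ((4 : ℂ) + t * I)‖ ^ 2) + 1)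

/-- Task MSZ (from TL and the proved `SAN`, `Pool.Agent.W186.SD.san`, with `y = 1`, `b 1 = 1`, so that
`cc b n = 1`; then TL with `f = ζ`; trivial for `σ ≥ 39/10`). Growth of zeta: `‖ζ s‖ ≤ 6 ‖s‖` for `Re s ≥ 1/4`,
`Im s ≥ 1` is `zeta_growth` in `Pool/Agent/H388LH/ZG.lean`. -/
def S_MSZ : Prop := ∃ C T0 : ℝ, 0 < C ∧ 2 ≤ T0 ∧ ∀ T σ : ℝ, T0 ≤ T → 1 / 2 ≤ σ →
  ∫ t in (T / 2)..(3 * T), ‖riemannZeta ((σ : ℂ) + t * I)‖ ^ 2 ≤ C * T * Real.log T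

/-- Task MSM: mean square of the mollifier (a Dirichlet polynomial of length `T^θ`: the coefficients `bb θ L 0 h`
are at most 1 in absolute value and vanish for `log h ≥ θ L`), any real part. Mean value theorem:
`BH.S_MV` (proved: `Pool.Agent.W701.BH.mv`) on `[T/2, T], [T, 2T], [3T/2, 3T]`. -/
def S_MSM : Prop := ∀ θ : ℝ, 0 < θ → θ ≤ 1 / 200 → ∃ C T0 : ℝ, 0 < C ∧ 2 ≤ T0 ∧ ∀ T v : ℝ, T0 ≤ T →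
  ∫ t in (T / 2)..(3 * T), ‖mT θ T (1 / 2 + (v : ℂ) + t * I)‖ ^ 2 ≤
    C * T * Real.log T * Real.exp (2 * θ * |v| * Real.log T)

/-- Task CCS: the coefficients `ac θ T n = ∑_{h | n} μ(h) φ(log h / (θ log T))`. From `DZ.SMo` (proved:
`Pool.Agent.W186.SD.smo`, `β = 0`): `∑_{n ≤ N} n^{-(1+1/L)} ‖ac n‖² ≤ C`, and `n^{1/L} ≤ e²` for `n ≤ T²`,
`n^{1/L} e^{-n/T} ≤ C` for all `n`; `φ = 1` on `[0, 1/2]`, `φ = 0` on `[1, ∞)`. -/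
def S_CCS : Prop := ∀ θ : ℝ, 0 < θ → θ ≤ 1 / 200 → ∃ C T0 : ℝ, 0 < C ∧ 2 ≤ T0 ∧ ∀ T : ℝ, T0 ≤ T →
  ac θ T 1 = 1 ∧ (∀ n : ℕ, 2 ≤ n → (n : ℝ) ≤ T ^ (θ / 2) → ac θ T n = 0) ∧
  (∀ p m : ℕ, p.Prime → T ^ θ < p → 1 ≤ m → ac θ T (p * m) = ac θ T m) ∧
  (∀ n : ℕ, ‖ac θ T n‖ ≤ n) ∧
  (∀ N : ℕ, (N : ℝ) ≤ T ^ 2 → ∑ n ∈ Finset.Icc 1 N, ‖ac θ T n‖ ^ 2 / (n : ℝ) ≤ C) ∧
  ∀ (Y : ℕ) (σ : ℝ), 1 ≤ Y → 1 / 2 ≤ σ →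
    Summable (fun n : ℕ => if n ≤ Y then 0 else
      ‖ac θ T n‖ ^ 2 * (n : ℝ) ^ (-(2 * σ)) * Real.exp (-(n / T))) ∧
    (∑' n : ℕ, if n ≤ Y then 0 else ‖ac θ T n‖ ^ 2 * (n : ℝ) ^ (-(2 * σ)) * Real.exp (-(n / T))) ≤
      C * (Y : ℝ) ^ (1 - 2 * σ)

/-- Task MSH (from TL, CCS and the proved `SMV1`, `Pool.Agent.W186.SD.smv1`): `f = ζ mT - 1`; on `Re s = 4/5` by
`SMV1`, on `Re s ≥ 39/10` it is `∑_{n > T^{θ/2}} ac n n^{-s}`, at most `∑_{n > T^{θ/2}} n^{1-3.9}`. -/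
def S_MSH : Prop := ∀ θ : ℝ, 0 < θ → θ ≤ 1 / 200 → ∃ c C T0 : ℝ, 0 < c ∧ 0 < C ∧ 2 ≤ T0 ∧
  ∀ T σ : ℝ, T0 ≤ T → 9 / 10 ≤ σ →
  ∫ t in (T / 2)..(3 * T), ‖riemannZeta ((σ : ℂ) + t * I) * mT θ T ((σ : ℂ) + t * I) - 1‖ ^ 2 ≤
    C * T ^ (1 - c)

/-- Task NRM1 (from MSZ, MSM, MSH and the proved `SMV1`): for `M ≥ C1 log log T` take `n = 1`, `B = ∅`.
`e1`: MSZ, `C L ≤ e^{δ M}`. `e2`: MSM, `2 θ |v| L ≤ 4 θ (M + v²/κ)` (AM-GM). `e3`: let `s = 1/2 + x + i(t+h)`;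
except on a set of measure `4 C T e^{-θ δ M}` (SMV1 if `1/2 + x ≤ 9/10`) or `4 C T^{1-c}` (MSH otherwise)
`‖ζ m (s) - 1‖ ≤ 1/2`, and `‖m(s)‖ ≤ e^{δ M}/2` except on a set of measure `4 e^{-2δM} C T L e^{8 θ M}` (MSM); then
`‖ζ(s)‖ ≥ e^{-δM}`. -/
def S_NRM1 : Prop := ∀ K0 δ η : ℝ, 0 < K0 → 0 < δ → 0 < η → ∃ θ0 : ℝ, 0 < θ0 ∧ θ0 ≤ 1 / 200 ∧
  ∀ θ : ℝ, 0 < θ → θ ≤ θ0 → ∃ C1 T0 : ℝ, 0 < C1 ∧ 3 ≤ T0 ∧ ∀ T κ : ℝ, T0 ≤ T → 0 < κ → κ ≤ K0 →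
  C1 * Real.log (Real.log T) ≤ κ * Real.log T ^ 2 → Nrm T κ δ η θ (fun _ => 1) ∅

/-- Task NRM2 (from MSZ, MSM and the proved `SMV1`, `SMV2`): for `C ≤ M ≤ C1 log log T` (so `r = κ L → 0`) take, with
`s1 = 1/2 + r + i t`, `n t = ‖ζ(s1)‖` and `B = {t : ‖ζ(s1) m(s1) - 1‖ > 1/2}`; `|B| ≤ 4 C T e^{-θM}` by SMV1.
Outside `B`: `1/(2‖m(s1)‖) ≤ n t ≤ 2/‖m(s1)‖`, `‖m(s1)‖ ≤ T^θ`. Write `E = M + (x²+h²)/κ`.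
`e1`: `(‖ζ(s)‖/n)² ≤ 4 ‖ζ(s) m(s1)‖²`, `s1 = s + β`, `β = r - x - i h`; if `x ≤ 2/5`, `|h| ≤ 1/2` then `‖β‖ ≤ 1` and
SMV2 gives `4 C T (1 + L‖β‖)^20 e^{2 θ L ‖β‖}` with `L ‖β‖ ≤ 2 E` (AM-GM), which is `≤ T e^{δ E}` for `θ ≤ δ/8`,
`E ≥ M ≥ C`. Otherwise `E ≥ c L²/M ≥ L^{3/2}` and the crude bound `T^{2θ} * C T L` (MSZ) is enough.
`e2`: the same: `ζ(s1) m(s1 + β)`, `β = v - r + i h`; crude bound `‖m(1/2 + v + i τ)‖ ≤ T^{θ(1+|v|)}`.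
`e3`: as in NRM1: `‖ζ m(s) - 1‖ ≤ 1/2` (SMV1) and `n t ‖m(s)‖ ≤ e^{δM}/2` except on a set of measure
`4 e^{-2δM} * T e^{δ' (M + 52 M)}` (`e2` with a smaller `δ'`). -/
def S_NRM2 : Prop := ∀ K0 δ η : ℝ, 0 < K0 → 0 < δ → 0 < η → ∃ θ0 : ℝ, 0 < θ0 ∧ θ0 ≤ 1 / 200 ∧
  ∀ θ : ℝ, 0 < θ → θ ≤ θ0 → ∀ C1 : ℝ, ∃ C T0 : ℝ, 0 < C ∧ 3 ≤ T0 ∧ ∀ T κ : ℝ, T0 ≤ T → 0 < κ → κ ≤ K0 →
  C ≤ κ * Real.log T ^ 2 → κ * Real.log T ^ 2 ≤ C1 * Real.log (Real.log T) →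
  ∃ (n : ℝ → ℝ) (B : Set ℝ), Nrm T κ δ η θ n B

/-- Task NRM (from NRM1, NRM2). -/
def S_NRM : Prop := ∀ K0 δ η : ℝ, 0 < K0 → 0 < δ → 0 < η → ∃ θ0 : ℝ, 0 < θ0 ∧ θ0 ≤ 1 / 200 ∧
  ∀ θ : ℝ, 0 < θ → θ ≤ θ0 → ∃ C T0 : ℝ, 0 < C ∧ 3 ≤ T0 ∧ ∀ T κ : ℝ, T0 ≤ T → 0 < κ → κ ≤ K0 →
  C ≤ κ * Real.log T ^ 2 → ∃ (n : ℝ → ℝ) (B : Set ℝ), Nrm T κ δ η θ n B

/-! ## C. Correlation with the primes -/

/-- Task JA (from CCS and the proved `BH.S_MV`, `Pool.Agent.W701.BH.mv`). Second moment of the off-diagonal part.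
`S_MV` (on `[T/2,T], [T,2T], [3T/2,3T]`, `N = T^γ`, so `exp(-(T/(8N²))²)` kills `(∑|x_j|)² ≤ T^4`): with `j = (n, p)`,
`n p' = n' p` means `(n,p) = (n',p')` or `n = p m, n' = p' m`, `p ≠ p'`, and then `m ≥ 2`. So the sum is at most
(i) `∑_n |ac n|²/n ∑_p (1/p) e^{-4κ log²(n/p)}`, where the inner sum is `≤ C (1 + κ^{-1/2}) / (a L)` by Chebyshev
(`∑_{x < p ≤ e x} 1/p ≤ C / log x`), total `≤ C' (1/L + 1/√M)`; plus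
(ii) `(∑ 1/p)² ∑_{m ≥ 2} |ac m|²/m e^{-4κ log² m}` (`ac (p m) = ac m` as `T^θ < p`), `ac m = 0` for
`2 ≤ m ≤ T^{θ/2}`, so at most `C e^{-κ θ² L²}`. -/
def S_JA : Prop := ∀ K0 θ a b γ η : ℝ, 0 < K0 → 0 < θ → θ ≤ 1 / 200 → θ < a → a < b → b < γ → γ < 1 / 2 →
  0 < η → ∃ C T0 : ℝ, 0 < C ∧ 2 ≤ T0 ∧ ∀ T κ : ℝ, T0 ≤ T → 0 < κ → κ ≤ K0 → C ≤ κ * Real.log T ^ 2 →
  ∫ t in (T / 2)..(3 * T),
    ‖∑ q ∈ ((Finset.Icc 1 ⌊T ^ γ⌋₊) ×ˢ PP a b T).filter (fun q => q.1 ≠ q.2),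
      ac θ T q.1 * (((((q.1 : ℝ) * q.2) ^ (-(1 / 2) : ℝ) *
        Real.exp (-(2 * κ * Real.log ((q.1 : ℝ) / q.2) ^ 2)) : ℝ)) : ℂ) *
        cexp (-(I * t * (Real.log ((q.1 : ℝ) / q.2) : ℂ)))‖ ^ 2 ≤ η * T

/-- Task JB (from SAY, CCS; `SMo` for `rr`: `‖rr y b k‖ ≤ C/(L φ(k))` and `DZ.SPhi` (proved:
`Pool.Agent.W557.SDSPhi.sphi`) give `∑ k (1 + log k) ‖rr‖² ≤ C`). Let
`D(s) = ζ(s) mT(s) - ∑_{n ≤ T^γ} ac n n^{-s}`. Shift the line to `Re w = c` with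
`c = min (4 κ L (γ - b)) (2/5)` (no pole: `1/2 + c < 1`); `|gw κ t (c + Iτ)| = (8πκ)^{-1/2} e^{c²/(8κ)} e^{-(τ-t)²/(8κ)}`,
`c²/(8κ) ≤ c (γ - b) L / 2`. Mean squares: `E |D(1/2+c+i(t+h))|² ≤ C T^{-2cγ}` for `|h| ≤ T/4` (SAY, CCS),
`E |PB (c + i(t+h))|² ≤ C T^{2cb}` (`S_MV`). So the mean is `≤ C e^{-c(γ-b)L/2}`, and `c L ≥ min (4(γ-b)M) (2L/5)`.
The part `|τ - t| > T/4` is negligible because of the Gaussian (`‖ζ(1/2 + c + iτ)‖` grows at most polynomially). -/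
def S_JB : Prop := ∀ K0 θ a b γ η : ℝ, 0 < K0 → 0 < θ → θ ≤ 1 / 200 → θ < a → a < b → b < γ → γ < 1 / 2 →
  0 < η → ∃ C T0 : ℝ, 0 < C ∧ 2 ≤ T0 ∧ ∀ T κ : ℝ, T0 ≤ T → 0 < κ → κ ≤ K0 → C ≤ κ * Real.log T ^ 2 →
  ∫ t in (T / 2)..(3 * T),
    ‖∫ τ : ℝ, (riemannZeta (1 / 2 + I * τ) * mT θ T (1 / 2 + I * τ) -
      ∑ n ∈ Finset.Icc 1 ⌊T ^ γ⌋₊, ac θ T n * (n : ℂ) ^ (-(1 / 2 + I * τ))) *
      PB a b T (I * τ) * gw κ t (I * τ)‖ ≤ η * T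

/-- Task PAIR (from JA, JB, CCS, and the proved `BH.S_MER`: `Pool.Agent.W64.BH.Mer`): `JJ = ∑_p ac p / p +` (the sum in
JA) `+` (the integral in JB), `ac p = 1`; Chebyshev's inequality. -/
def S_PAIR : Prop := ∀ K0 θ a b η : ℝ, 0 < K0 → 0 < θ → θ ≤ 1 / 200 → θ < a → a < b → b < 1 / 2 →
  0 < η → ∃ C T0 : ℝ, 0 < C ∧ 2 ≤ T0 ∧ ∀ T κ : ℝ, T0 ≤ T → 0 < κ → κ ≤ K0 → C ≤ κ * Real.log T ^ 2 →
  volume {t : ℝ | T / 2 ≤ t ∧ t ≤ 3 * T ∧ SP a b T / 2 < ‖JJ κ θ a b T t - (SP a b T : ℂ)‖} ≤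
    ENNReal.ofReal (η * T)

/-- Task JH (from GRO, MSZ, the proved `BH.S_STIR` (`Pool.Agent.W347.BH.stir`) and `JP.SZeta`). For
`|τ - t| ≤ log² T`: `XX(Iτ) e^{-be t I(τ-t)} / HH(It) = ζ(1/2+Iτ) (1 + O(L⁴/T))`, and
`‖mT‖ ‖PB‖ ≤ T^{1/200 + 3/10}` pointwise, `∫ ‖ζ‖² ≤ C T L`; the rest is killed by the Gaussian (`‖XX(Iτ)‖ ≤ C`,
`‖HH(It)‖ ≥ e^{-Kt}`; for `log² T ≤ |τ-t| ≤ t/16` the last clause of STIR). -/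
def S_JH : Prop := ∀ K0 θ a b η : ℝ, 0 < K0 → 0 < θ → θ ≤ 1 / 200 → 0 < a → a < b → b < 1 / 2 →
  0 < η → ∃ T0 : ℝ, 2 ≤ T0 ∧ ∀ T κ : ℝ, T0 ≤ T → 0 < κ → κ ≤ K0 →
  volume {t : ℝ | T / 2 ≤ t ∧ t ≤ 3 * T ∧
    η < ‖(∫ τ : ℝ, XX (I * τ) * qq κ θ a b T t (I * τ)) / HH (I * t) - JJ κ θ a b T t‖} ≤
    ENNReal.ofReal (η * T)

/-! ## D. Upper and lower bounds in most windows -/

/-- Task UM (from INT, GRO, STIR). Second moment of `XK` at a fixed point of the window. Take `s = -min (re w) r` in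
INT, `x' = re w + s`; Cauchy-Schwarz for the probability measure `(4πκ)^{-1/2} e^{-y²/(4κ)} dy`:
`‖XK κ (It+w)‖² ≤ e^{s²/(2κ)} (4πκ)^{-1/2} ∫ ‖XX(It + x' + I(im w + y))‖² e^{-y²/(4κ)} dy`. For
`h = im w + y`, `|h| ≤ T/16`: `XX = HH ζ`, `‖HH(It + x' + Ih)‖ ≤ ‖HH(It)‖ e^{(log t)/2 x' + K(x'+|h|)}`, and `e1`
after integration over `t`; `K|h| ≤ δ' (M + h²/κ)` etc. by AM-GM and `L ≥ K/δ'`. Exponents: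
`s²/(2κ) + L x' = 2 VV κ L (re w)`. The part `|h| > T/16` is negligible (GRO, `n t ≥ 1/T`, `‖HH(It)‖ ≥ e^{-Kt}`). -/
def S_UM : Prop := ∀ K0 δ : ℝ, 0 < K0 → 0 < δ → ∃ δ' C T0 : ℝ, 0 < δ' ∧ 0 < C ∧ 3 ≤ T0 ∧
  ∀ (T κ η θ : ℝ) (n : ℝ → ℝ) (B : Set ℝ), T0 ≤ T → 0 < κ → κ ≤ K0 → C ≤ κ * Real.log T ^ 2 →
  Nrm T κ δ' η θ n B → ∀ w : ℂ, 0 ≤ w.re → w.re ≤ T / 64 → |w.im| ≤ T / 64 →
  ∫⁻ t in Set.Icc T (2 * T) \ B, ENNReal.ofReal ((‖XK κ (I * t + w)‖ / (‖HH (I * t)‖ * n t)) ^ 2) ≤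
    ENNReal.ofReal (T * Real.exp (2 * VV κ (Real.log T) w.re +
      δ * (κ * Real.log T ^ 2 + (w.re ^ 2 + w.im ^ 2) / κ)))

/-- Task US (from UM and `BH.S_SYM`: `XK κ (-conj z) = conj (XK κ z)`). Upper bound for ALL points of the window, for
most `t`: mean value inequality `‖f w‖² ≤ (1/πρ²) ∫_{B(w,ρ)} ‖f‖²` for `f w = XK κ (It + w)` with `ρ = ρ0 r`, `ρ0` small
(`VV` changes by at most `L ρ / 2 = ρ0 M / 2` over distance `ρ`), Tonelli and Chebyshev for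
`Φ(t) = ∫_{|re w| ≤ 7r, |im w| ≤ T/64} ‖f w‖² / (‖HH‖ n)² exp(-2 VV - δ'' (M + (im w)²/κ)) dw`, whose mean is at most
`C r √κ e^{-δ'' M/2}`, against `ρ² = ρ0² r²`. -/
def S_US : Prop := ∀ K0 δ η : ℝ, 0 < K0 → 0 < δ → 0 < η → ∃ δ' C T0 : ℝ, 0 < δ' ∧ 0 < C ∧ 3 ≤ T0 ∧
  ∀ (T κ η' θ : ℝ) (n : ℝ → ℝ) (B : Set ℝ), T0 ≤ T → 0 < κ → κ ≤ K0 → C ≤ κ * Real.log T ^ 2 →
  Nrm T κ δ' η' θ n B →
  volume {t : ℝ | t ∈ Set.Icc T (2 * T) \ B ∧ ¬ ∀ w : ℂ, |w.re| ≤ 6 * (κ * Real.log T) → |w.im| ≤ T / 128 →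
    ‖XK κ (I * t + w)‖ ≤ ‖HH (I * t)‖ * n t *
      Real.exp (VV κ (Real.log T) w.re + δ * (κ * Real.log T ^ 2 + w.im ^ 2 / κ))} ≤
    ENNReal.ofReal (η * T)

/-- Task L1 (from INT, GRO, STIR, UM, `BH.S_SYM`). Lower bound to the right of `r`. By INT
`XX(It + x0 + Ih) = (4πκ)^{-1/2} ∫ XK κ (It + Ih + x0 + u) e^{-u²/(4κ)} du`, and the left side is at least
`‖HH(It)‖ n t e^{L x0/2 - δ'' M}` by `e3`. Always `VV (x0+u) - u²/(4κ) ≤ L x0/2`, and if `|u - r| ≥ δ r`, `x0 ≥ δ r` it is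
`≤ L x0/2 - c δ² (M + u²/κ)` (`c = 1/100`; scale by `r`: cases `X ≥ 1`: gap `(u-1)²/4`; `|X| ≤ 1`: gap
`x0 (2 (1-u) - x0)/4`; `X ≤ -1`: gap `x0 + (u+1)²/4`). So the mean (UM, symmetry for negative real part) of the part
`|u - r| ≥ δ r` is too small, the part `|u - r| < δ r` must be at least half; the part `|x0 + u| > T/64` by GRO. -/
def S_L1 : Prop := ∀ K0 δ η : ℝ, 0 < K0 → 0 < δ → δ ≤ 1 → 0 < η → ∃ δ' C T0 : ℝ, 0 < δ' ∧ 0 < C ∧ 3 ≤ T0 ∧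
  ∀ (T κ θ : ℝ) (n : ℝ → ℝ) (B : Set ℝ), T0 ≤ T → 0 < κ → κ ≤ K0 → C ≤ κ * Real.log T ^ 2 →
  Nrm T κ δ' (η / 4) θ n B → ∀ x0 h : ℝ, δ * (κ * Real.log T) ≤ x0 → x0 ≤ 3 * (κ * Real.log T) →
  |h| ≤ 5 * (κ * Real.log T) →
  volume {t : ℝ | t ∈ Set.Icc T (2 * T) \ B ∧ ¬ ∃ u : ℝ, |u - κ * Real.log T| ≤ δ * (κ * Real.log T) ∧
    ‖HH (I * t)‖ * n t * Real.exp (VV κ (Real.log T) (x0 + u) - δ * (κ * Real.log T ^ 2)) ≤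
      ‖XK κ (I * t + (((x0 + u : ℝ) : ℂ) + I * h))‖} ≤ ENNReal.ofReal (η * T)

/-- Task PSI (from STIR, the proved `BH.S_MV`). Mean of the weighted test function on the line `Re = X r`.
`‖qq(v + Iτ)‖ = (8πκ)^{-1/2} e^{-(τ-t')²/(8κ) + v²/(8κ)} e^{-Re be v + Im be (τ-t')} ‖mT(1/2+v+Iτ)‖ ‖PB(v+Iτ)‖`, `t' = t + h0`,
`|Re be - L/2| ≤ C`, `|Im be| ≤ 1`. Cauchy-Schwarz over `t`: `e2` for `n ‖mT‖`, and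
`∫ ‖PB(v + I(t+e))‖² dt ≤ C T e^{(1-X) L v + 2 δ1 L |v|}` (`S_MV`). Exponents of `v`:
`-(X r - v)²/(4κ) + v²/(8κ) - (L/2) v + (1-X) L v/2 = -X² M/4 - v²/(8κ)`; the errors `δ1 L|v|`, `C|v|`, `δ' v²/κ` are
absorbed (`δ1 L |v| ≤ v²/(32κ) + 8 δ1² M`); for `e = τ - t`: `-(e-h0)²/(8κ) + (e-h0)²/(32κ) + δ' e²/κ + |e - h0|`,
`h0² ≤ 25 r² = 25 κ M`. -/
def S_PSI : Prop := ∀ K0 X ε : ℝ, 0 < K0 → 0 < X → X < 1 → 0 < ε → ∃ δ1 δ' : ℝ, 0 < δ1 ∧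
  0 < (1 - X) / 2 - δ1 ∧ (1 - X) / 2 + δ1 < 1 / 2 ∧ 0 < δ' ∧ ∀ θ : ℝ, 0 < θ → θ ≤ 1 / 200 →
  ∃ C T0 : ℝ, 0 < C ∧ 3 ≤ T0 ∧
  ∀ (T κ η : ℝ) (n : ℝ → ℝ) (B : Set ℝ), T0 ≤ T → 0 < κ → κ ≤ K0 → C ≤ κ * Real.log T ^ 2 →
  Nrm T κ δ' η θ n B → ∀ h0 : ℝ, |h0| ≤ 5 * (κ * Real.log T) →
  ∫⁻ t in Set.Icc T (2 * T) \ B, ∫⁻ p in {p : ℝ × ℝ | |p.2 - t| ≤ T / 64},
    ENNReal.ofReal (1 / Real.sqrt (4 * Real.pi * κ) *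
      Real.exp (-((X * (κ * Real.log T) - p.1) ^ 2 / (4 * κ)) + (p.2 - t - h0) ^ 2 / (32 * κ)) *
      ‖qq κ θ ((1 - X) / 2 - δ1) ((1 - X) / 2 + δ1) T (t + h0) ((p.1 : ℂ) + I * p.2)‖ * n t) ≤
    ENNReal.ofReal (T * Real.exp (-(X ^ 2 * (κ * Real.log T ^ 2) / 4) + ε * (κ * Real.log T ^ 2)))

/-- Task FQ (from GRO, STIR). The far part: `‖XK κ (X0 + Iτ)‖ ≤ e^{C L²}`, `‖mT(1/2+v+Iτ)‖, ‖PB(v+Iτ)‖ ≤ T^{2(1+|v|)}`,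
the Gaussian in `τ` is at most `e^{-(T/256)²/(8κ)}` and beats everything, also `e^{X0²/(4κ)}` and `‖HH(It)‖ ≥ e^{-Kt}`. -/
def S_FQ : Prop := ∀ K0 θ a b : ℝ, 0 < K0 → 0 < θ → θ ≤ 1 / 200 → 0 < a → a < b → b < 1 / 2 →
  ∃ T0 : ℝ, 3 ≤ T0 ∧ ∀ T κ t X0 : ℝ, T0 ≤ T → 0 < κ → κ ≤ K0 → 1 ≤ κ * Real.log T ^ 2 →
  T / 2 ≤ t → t ≤ 3 * T → 0 ≤ X0 → X0 ≤ K0 * Real.log T →
  ∫⁻ p in {p : ℝ × ℝ | T / 256 ≤ |p.2 - t|},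
    ENNReal.ofReal (1 / Real.sqrt (4 * Real.pi * κ) * Real.exp (-((X0 - p.1) ^ 2 / (4 * κ))) *
      ‖XK κ ((X0 : ℂ) + I * p.2)‖ * ‖qq κ θ a b T t ((p.1 : ℂ) + I * p.2)‖) ≤
    ENNReal.ofReal (Real.exp (-T) * ‖HH (I * t)‖)

/-- Task L2 (from PAIR, JH, STQ, US, PSI, FQ, STIR, `BH.S_MER`). Lower bound inside the band. Let `t' = t + h0`, `X0 = X r`,
`a, b = (1-X)/2 ∓ δ1`. For most `t`: `‖∫ XX(Iτ) qq_{t'}(Iτ) dτ‖ ≥ c1 ‖HH(It')‖` (PAIR, JH, MER) and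
`‖HH(It')‖ ≥ e^{-5 K r} ‖HH(It)‖`. By STQ it is at most the double integral, split into
near `|τ - t'| ≤ δ r`: if the claim fails, at most `‖HH(It)‖ n e^{X²M/4 - δM} ∫∫ …‖qq‖`, which is small for most `t`
by PSI (Markov); middle `δ r < |τ-t'|`, `|τ-t| ≤ T/128`: US (with `δU`) and the weight `e^{(τ-t')²/(32κ)} ≥ e^{δ² M/32}` of
PSI; far: FQ. Order of choice: `ε` (PSI) and `δU` (US) small compared to `δ²`. -/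
def S_L2 : Prop := ∀ K0 δ X η : ℝ, 0 < K0 → 0 < δ → 0 < X → X < 1 → 0 < η → ∃ δ' θ1 : ℝ, 0 < δ' ∧ 0 < θ1 ∧
  ∀ θ : ℝ, 0 < θ → θ ≤ θ1 → θ ≤ 1 / 200 → ∃ C T0 : ℝ, 0 < C ∧ 3 ≤ T0 ∧
  ∀ (T κ η' : ℝ) (n : ℝ → ℝ) (B : Set ℝ), T0 ≤ T → 0 < κ → κ ≤ K0 → C ≤ κ * Real.log T ^ 2 →
  Nrm T κ δ' η' θ n B → ∀ h0 : ℝ, |h0| ≤ 5 * (κ * Real.log T) →
  volume {t : ℝ | t ∈ Set.Icc T (2 * T) \ B ∧ ¬ ∃ h : ℝ, |h - h0| ≤ δ * (κ * Real.log T) ∧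
    ‖HH (I * t)‖ * n t * Real.exp (VV κ (Real.log T) (X * (κ * Real.log T)) - δ * (κ * Real.log T ^ 2)) ≤
      ‖XK κ (I * t + (((X * (κ * Real.log T) : ℝ) : ℂ) + I * h))‖} ≤ ENNReal.ofReal (η * T)

/-- The window at height `t` is good. -/
def GW (δ T κ t : ℝ) : Prop := ∃ N : ℝ, 0 < N ∧
  (∀ z : ℂ, |z.re| ≤ 5 → -4 ≤ z.im → z.im ≤ 5 →
    ‖XK κ (I * t + ((κ * Real.log T : ℝ) : ℂ) * z)‖ ≤ N * Real.exp (κ * Real.log T ^ 2 * (Vh 1 z.re + δ))) ∧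
  ∀ z : ℂ, |z.re| ≤ 3 → -2 ≤ z.im → z.im ≤ 3 → ∃ w : ℂ, ‖w - z‖ ≤ δ ∧
    N * Real.exp (κ * Real.log T ^ 2 * (Vh 1 w.re - δ)) ≤ ‖XK κ (I * t + ((κ * Real.log T : ℝ) : ℂ) * w)‖

/-- Task WIN (from NRM, US, L1, L2, `BH.S_SYM`). Most windows are good: `N = ‖HH(It)‖ n t`; a finite grid of points, the
smallest `δ'`, `θ`, the largest `C`, `T0`; negative real parts by `XK κ (-conj z) = conj (XK κ z)`. -/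
def S_WIN : Prop := ∀ K0 δ η : ℝ, 0 < K0 → 0 < δ → 0 < η → ∃ C T0 : ℝ, 0 < C ∧ 3 ≤ T0 ∧
  ∀ T κ : ℝ, T0 ≤ T → 0 < κ → κ ≤ K0 → C ≤ κ * Real.log T ^ 2 →
  volume {t : ℝ | T ≤ t ∧ t ≤ 2 * T ∧ ¬ GW δ T κ t} ≤ ENNReal.ofReal (η * T)

/-! ## E. Counting -/

/-- Task BLK (from WIN, `BH.S_SYM`, and the proved `BH.S_CAF`: `Pool.Agent.W475.BH.a_CAF` in
`Pool/Agent/W475/BH/All.lean`, used with its `κ := 1`). Lower bound in a dyadic block. For `f w = XK κ (It + r w)/N` in a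
good window CAF gives at least `M ((X2-X1)/(4π) - ε')` zeros of `XK κ` with `X1 r ≤ re ≤ X2 r`, `t < im ≤ t + r`. Tile
`[T, 2T]` by windows of length `r` with an offset `u ∈ [0, r)` chosen (averaging) such that at most `η T / r` tiles are bad;
disjoint tiles add up; `M / r = L`. -/
def S_BLK : Prop := ∀ K0 ε X1 X2 : ℝ, 0 < K0 → 0 < ε → -1 ≤ X1 → X1 ≤ X2 → X2 ≤ 1 → ∃ C T0 : ℝ,
  0 < C ∧ 3 ≤ T0 ∧ ∀ T κ : ℝ, T0 ≤ T → 0 < κ → κ ≤ K0 → C ≤ κ * Real.log T ^ 2 →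
  ((X2 - X1) / (4 * Real.pi) - ε) * (T * Real.log T) ≤
    nz (XK κ) {z | X1 * (κ * Real.log T) ≤ z.re ∧ z.re ≤ X2 * (κ * Real.log T) ∧ T < z.im ∧ z.im ≤ 2 * T}

/-- Task TOT (from GRO, BLK, `BH.S_SYM`; compare `Pool.Agent.W190.BH.Tot`). Zeros in a disc. Lower bound: dyadic blocks (and
their conjugates) with `X1 = -1`, `X2 = 1`. Upper bound: Jensen's formula and GRO give
`∫_0^R n(ρ)/ρ dρ ≤ (1/π) R log R + C R`; with `L(R)` for the left side,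
`n(R) log(1+d) ≤ L((1+d)R) - L(R)` and `L(R) ≥ ∫_{εR}^R n(ρ)/ρ dρ ≥ (1/π - ε)(1-ε) R log (εR)`. -/
def S_TOT : Prop := ∀ K0 ε : ℝ, 0 < K0 → 0 < ε → ∃ C R0 : ℝ, 0 < C ∧ 3 ≤ R0 ∧
  ∀ R κ : ℝ, R0 ≤ R → 0 < κ → κ ≤ K0 → C ≤ κ * Real.log R ^ 2 →
  |(nz (XK κ) {z | ‖z‖ ≤ R} : ℝ) / (R * Real.log R) - 1 / Real.pi| ≤ ε

/-- Task DSC (from BLK, TOT, `BH.S_SYM`; compare `Pool.Agent.W475.BH.Dsc`). Zeros in a part of a disc, uniformly in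
`X1, X2`: lower bounds from BLK for a finite grid of `X1, X2` (`log T / log R → 1` for `T ∈ [ε R, R]`), upper bounds by
subtracting the complement from TOT. -/
def S_DSC : Prop := ∀ K0 ε : ℝ, 0 < K0 → 0 < ε → ∃ C R0 : ℝ, 0 < C ∧ 3 ≤ R0 ∧
  ∀ R κ X1 X2 : ℝ, R0 ≤ R → 0 < κ → κ ≤ K0 → C ≤ κ * Real.log R ^ 2 → -1 ≤ X1 → X1 ≤ X2 → X2 ≤ 1 →
  |(nz (XK κ) {z | ‖z‖ ≤ R ∧ X1 * (κ * Real.log R) ≤ z.re ∧ z.re ≤ X2 * (κ * Real.log R)} : ℝ) /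
    (R * Real.log R) - (X2 - X1) / (2 * Real.pi)| ≤ ε

/-- Task FINU (from `BH.S_EXP`, `BH.S_SYM`, TOT, DSC; compare `Pool.Agent.W475.BH.Fin`): the theorem.
`Ht (-4κ) z = XK κ (I z / 2) / 64`, so `R` becomes `R/2`, and `κ log (R/2)` has to be replaced by `κ log R`. -/
def S_FINU : Prop := ∀ B ε : ℝ, 0 < B → 0 < ε → ∃ C R0 : ℝ, 0 < C ∧ 3 ≤ R0 ∧
  ∀ R t : ℝ, R0 ≤ R → -B ≤ t → t < 0 → C ≤ |t| * Real.log R ^ 2 →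
  |(nz (Ht t) {z | ‖z‖ ≤ R} : ℝ) / (R * Real.log R) - 1 / (2 * Real.pi)| ≤ ε ∧
  ∀ a b : ℝ, -1 ≤ a → a ≤ b → b ≤ 1 →
  |(nz (Ht t) {z | ‖z‖ ≤ R ∧ a * (|t| / 2 * Real.log R) ≤ z.im ∧ z.im ≤ b * (|t| / 2 * Real.log R)} : ℝ) -
    (b - a) / 2 * (nz (Ht t) {z | ‖z‖ ≤ R} : ℝ)| ≤ ε * (nz (Ht t) {z | ‖z‖ ≤ R} : ℝ)

end Pool.Agent.W475.BU
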